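import Pool.Agent.SawMrg.Conc2

/-!
Summary: in typical self-avoiding walks the number of insertable bumps is linear and almost
exactly `μ²` times the number of removable bumps.
-/

set_option autoImplicit false

open SawNu Pool.Agent.SawLim Pool.Agent.SawKes

namespace Pool.Agent.SawMrg

lemma pow_mul_exp_le (K : ℕ) (δ : ℝ) (hδ : 0 < δ) : ∃ n₀ : ℕ, ∀ n : ℕ, n₀ ≤ n →
    2 * (n : ℝ) ^ K * Real.exp (-(n : ℝ) ^ δ) ≤ 1 := by
  have ev1 : ∀ᶠ x : ℝ in Filter.atTop, Real.log x ≤ (1 / ((K : ℝ) + 1)) * x ^ δ := by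
    have := (isLittleO_log_rpow_atTop hδ).bound (c := 1 / ((K : ℝ) + 1)) (by positivity)
    filter_upwards [this, Filter.eventually_ge_atTop (1 : ℝ)] with x hx hx1
    rw [Real.norm_of_nonneg (Real.log_nonneg hx1),
      Real.norm_of_nonneg (by positivity)] at hx
    exact hx
  have e1 := tendsto_natCast_atTop_atTop.eventually ev1
  obtain ⟨n₀, h0⟩ := Filter.eventually_atTop.1 (e1.and (Filter.eventually_ge_atTop 2))
  refine ⟨n₀, fun n hn => ?_⟩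
  obtain ⟨h1, h2⟩ := h0 n hn
  have hn2 : (2 : ℝ) ≤ n := by exact_mod_cast h2
  have hn0 : (0 : ℝ) < n := by linarith
  have h3 : 2 * (n : ℝ) ^ K ≤ (n : ℝ) ^ (K + 1) := by
    rw [pow_succ, mul_comm]
    exact mul_le_mul_of_nonneg_left hn2 (by positivity)
  have h4 : (n : ℝ) ^ (K + 1) = Real.exp (((K : ℝ) + 1) * Real.log n) := by
    rw [mul_comm, Real.exp_mul, Real.exp_log hn0]
    exact_mod_cast rfl
  have h5 : ((K : ℝ) + 1) * Real.log n ≤ (n : ℝ) ^ δ := by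
    have := mul_le_mul_of_nonneg_left h1 (by positivity : 0 ≤ (K : ℝ) + 1)
    rwa [← mul_assoc, mul_one_div_cancel (by positivity), one_mul] at this
  calc 2 * (n : ℝ) ^ K * Real.exp (-(n : ℝ) ^ δ)
      ≤ Real.exp ((n : ℝ) ^ δ) * Real.exp (-(n : ℝ) ^ δ) := by
        apply mul_le_mul_of_nonneg_right _ (Real.exp_pos _).le
        rw [h4] at h3
        exact h3.trans (Real.exp_le_exp.2 h5)
    _ = 1 := by rw [← Real.exp_add, add_neg_cancel, Real.exp_zero]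

open scoped Classical in
/-- **Typical walks.** -/
theorem Hmain : ∃ a : ℝ, 0 < a ∧ a ≤ 1 ∧ ∀ δ : ℝ, 0 < δ → δ < 1 / 2 → ∀ K : ℕ,
    ∃ n₀ : ℕ, ∀ n : ℕ, n₀ ≤ n →
    (n : ℝ) ^ K * (((saws n).filter (fun w => ¬ (a * n ≤ ((Ins n w).card : ℝ) ∧
      |((Ins n w).card : ℝ) - mu ^ 2 * ((Del n w).card : ℝ)| ≤
        (n : ℝ) ^ (δ - 1 / 2) * ((Ins n w).card : ℝ)))).card : ℝ) ≤ ((saws n).card : ℝ) := by
  obtain ⟨a, ha, ha1, hG⟩ := good_typical
  refine ⟨a, ha, ha1, fun δ hδ hδ' K => ?_⟩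
  obtain ⟨n₁, h₁⟩ := hG (δ / 2) (by positivity) (by linarith)
  obtain ⟨n₂, h₂⟩ := pow_mul_exp_le K (δ / 2) (by positivity)
  obtain ⟨n₃, h₃⟩ : ∃ n₃ : ℕ, ∀ n : ℕ, n₃ ≤ n → (2 : ℝ) ≤ (n : ℝ) ^ (δ / 2) := by
    have h : ∀ᶠ n : ℕ in Filter.atTop, (2 : ℝ) ≤ (n : ℝ) ^ (δ / 2) :=
      ((tendsto_rpow_atTop (by positivity : 0 < δ / 2)).comp
        tendsto_natCast_atTop_atTop).eventually_ge_atTop _
    exact Filter.eventually_atTop.1 h
  refine ⟨max n₁ (max n₂ (max n₃ 1)), fun n hn => ?_⟩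
  have k1 := h₁ n ((le_max_left _ _).trans hn)
  have k2 := h₂ n (((le_max_left _ _).trans (le_max_right _ _)).trans hn)
  have k3 := h₃ n (((le_max_left _ _).trans ((le_max_right _ _).trans (le_max_right _ _))).trans hn)
  have k4 : 1 ≤ n := ((le_max_right _ _).trans ((le_max_right _ _).trans (le_max_right _ _))).trans hn
  have hn1 : (1 : ℝ) ≤ n := by exact_mod_cast k4
  have hn0 : (0 : ℝ) < n := by linarith
  have hε1 : (n : ℝ) ^ (δ / 2 - 1 / 2) ≤ 1 :=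
    Real.rpow_le_one_of_one_le_of_nonpos hn1 (by linarith)
  have hε0 : 0 < (n : ℝ) ^ (δ / 2 - 1 / 2) := by positivity
  have hε2 : 2 * (n : ℝ) ^ (δ / 2 - 1 / 2) ≤ (n : ℝ) ^ (δ - 1 / 2) := by
    have : (n : ℝ) ^ (δ - 1 / 2) = (n : ℝ) ^ (δ / 2) * (n : ℝ) ^ (δ / 2 - 1 / 2) := by
      rw [← Real.rpow_add hn0]; congr 1; ring
    rw [this]
    exact mul_le_mul_of_nonneg_right k3 hε0.le
  have hsub : ((saws n).filter (fun w => ¬ (a * n ≤ ((Ins n w).card : ℝ) ∧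
      |((Ins n w).card : ℝ) - mu ^ 2 * ((Del n w).card : ℝ)| ≤
        (n : ℝ) ^ (δ - 1 / 2) * ((Ins n w).card : ℝ)))) ⊆
      (saws n).filter (fun w => ¬ Good a ((n : ℝ) ^ (δ / 2 - 1 / 2)) n w) := by
    intro w hw
    rw [Finset.mem_filter] at hw ⊢
    refine ⟨hw.1, fun hg => hw.2 ?_⟩
    obtain ⟨g1, g2⟩ := hg
    unfold Off at g2
    rw [not_or, not_le, not_le] at g2
    obtain ⟨g2, g3⟩ := g2
    unfold nI nJ at *
    refine ⟨g1, ?_⟩
    set I : ℝ := ((Ins n w).card : ℝ) with hI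
    set J : ℝ := mu ^ 2 * ((Del n w).card : ℝ) with hJ
    set ε : ℝ := (n : ℝ) ^ (δ / 2 - 1 / 2) with hε
    have hI0 : 0 ≤ I := Nat.cast_nonneg _
    have h1 : |I - J| ≤ 2 * ε * I := by
      rw [abs_le]
      constructor
      · nlinarith
      · have : J ≤ 2 * I := by nlinarith
        nlinarith
    exact h1.trans (mul_le_mul_of_nonneg_right hε2 hI0)
  have h4 : (((saws n).filter (fun w => ¬ (a * n ≤ ((Ins n w).card : ℝ) ∧
      |((Ins n w).card : ℝ) - mu ^ 2 * ((Del n w).card : ℝ)| ≤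
        (n : ℝ) ^ (δ - 1 / 2) * ((Ins n w).card : ℝ)))).card : ℝ) ≤
      (((saws n).filter (fun w => ¬ Good a ((n : ℝ) ^ (δ / 2 - 1 / 2)) n w)).card : ℝ) := by
    exact_mod_cast Finset.card_le_card hsub
  have h5 : mu ^ n ≤ ((saws n).card : ℝ) := by
    rw [card_saws]; exact mu_pow_le n
  have hmun : 0 < mu ^ n := pow_pos mu_pos n
  calc (n : ℝ) ^ K * (((saws n).filter (fun w => ¬ (a * n ≤ ((Ins n w).card : ℝ) ∧
      |((Ins n w).card : ℝ) - mu ^ 2 * ((Del n w).card : ℝ)| ≤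
        (n : ℝ) ^ (δ - 1 / 2) * ((Ins n w).card : ℝ)))).card : ℝ)
      ≤ (n : ℝ) ^ K * (2 * (Real.exp (-(n : ℝ) ^ (δ / 2)) * mu ^ n)) :=
        mul_le_mul_of_nonneg_left (h4.trans k1) (by positivity)
    _ = (2 * (n : ℝ) ^ K * Real.exp (-(n : ℝ) ^ (δ / 2))) * mu ^ n := by ring
    _ ≤ 1 * mu ^ n := mul_le_mul_of_nonneg_right k2 hmun.le
    _ ≤ _ := by rw [one_mul]; exact h5

end Pool.Agent.SawMrg
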