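import Pool.Agent.SawKes.Walk
import Pool.Agent.SawHW33.VEnc
import Pool.Agent.SawHW33.Split
import Pool.Agent.SawHW33.Analysis
import Pool.Agent.Lib.SAW.HW.Unfold

/-!
The Hammersley-Welsh bound with small exponent for the counting sequence of the square lattice.
-/

set_option autoImplicit false

open SawNu Pool.Agent.SawKes Pool.Agent.Lib.SAW.HW

namespace Pool.Agent.SawMrg

theorem hw_bound (ε : ℝ) (hε : 0 < ε) :
    ∃ n₀ : ℕ, ∀ n : ℕ, n₀ ≤ n → (cc n : ℝ) ≤ mu ^ n * Real.exp ((n : ℝ) ^ ε) := by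
  have hup : ∀ b, ∃ u ∈ sqL.S b, u.2 = 1 := fun b => ⟨(0, 1), by simp [sqL], rfl⟩
  obtain ⟨μ, hμ⟩ : ∃ μ : ℝ, μ = ⨅ n : {n : ℕ // 1 ≤ n}, ((cc n.1 : ℝ) ^ ((1 : ℝ) / (n.1 : ℝ))) :=
    ⟨_, rfl⟩
  have h1 : ∀ᶠ n : ℕ in Filter.atTop, (cc n : ℝ) ≤ μ ^ n * Real.exp ((n : ℝ) ^ ε) := by
    refine Pool.Agent.SawHW33.hw_analysis (a := cc) (h := fun n => (HSb sqL false n).card)
      (b := fun p => (sysL sqL).b p) ?_ ?_ ?_ ?_ ?_ hμ ε hε
    · intro m n
      exact WS_mul mirrored_sq m n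
    · intro n
      exact WS_split mirrored_sq hup n
    · intro p q
      exact b_mul_le p q
    · intro p
      exact b_le_card mirrored_sq p (WS sqL p) (fun l h1 h2 h3 => mem_WS.mpr ⟨h1, h2, h3⟩)
    · intro ε' hε'
      obtain ⟨n₀, h₀⟩ := halfspace_bound mirrored_sq ε' hε'
      exact ⟨n₀, fun N hN p hp => h₀ N hN p hp _ (fun l hl => mem_HSb.mp hl)⟩
  have hμ0 : 0 ≤ μ := by
    rw [hμ]; exact Real.iInf_nonneg (fun _ => by positivity)
  have hμ1 : μ ≤ mu := by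
    have ht := sub_log.tendsto_lim bdd_log
    have ht2 : Filter.Tendsto (fun n : ℕ => Real.exp (Real.log (cc n) / n)) Filter.atTop
        (nhds mu) := (Real.continuous_exp.tendsto _).comp ht
    apply ge_of_tendsto ht2
    filter_upwards [Filter.eventually_ge_atTop 1] with n hn
    rw [hμ]
    have hpos : (0 : ℝ) < cc n := by exact_mod_cast cc_pos n
    have e : Real.exp (Real.log (cc n) / n) = (cc n : ℝ) ^ ((1 : ℝ) / (n : ℝ)) := by
      rw [Real.rpow_def_of_pos hpos]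
      congr 1; ring
    rw [e]
    exact ciInf_le (f := fun n : {n : ℕ // 1 ≤ n} => ((cc n.1 : ℝ) ^ ((1 : ℝ) / (n.1 : ℝ))))
      ⟨0, by rintro x ⟨n, rfl⟩; positivity⟩ ⟨n, hn⟩
  obtain ⟨n₀, h2⟩ := Filter.eventually_atTop.1 h1
  refine ⟨n₀, fun n hn => (h2 n hn).trans ?_⟩
  exact mul_le_mul_of_nonneg_right (pow_le_pow_left₀ hμ0 hμ1 n) (Real.exp_pos _).le

end Pool.Agent.SawMrg
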