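import Pool.Agent.SawLim.Moves
import Pool.Agent.SawKes.Kesten

/-!
Walks with few insertable bumps are exponentially rare.
-/

set_option autoImplicit false

open SawNu Pool.Agent.SawLim Pool.Agent.SawKes

namespace Pool.Agent.SawMrg

/-- sites of a walk -/
def lst (n : ℕ) (w : Fin (n + 1) → ℤ × ℤ) : List Site := List.ofFn w

lemma length_lst {n : ℕ} (w : Fin (n + 1) → ℤ × ℤ) : (lst n w).length = n + 1 := by
  simp [lst]

lemma getElem_lst {n : ℕ} (w : Fin (n + 1) → ℤ × ℤ) (i : ℕ) (h : i < (lst n w).length) :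
    (lst n w)[i] = wN n w i := by
  have h' : i ≤ n := by rw [length_lst] at h; omega
  rw [wN_of_le w h']
  simp only [lst, List.getElem_ofFn]

lemma lst_inj {n : ℕ} : Function.Injective (lst n) := fun _ _ h => List.ofFn_injective h

lemma lst_mem {n : ℕ} {w : Fin (n + 1) → ℤ × ℤ} (h : w ∈ saws n) : lst n w ∈ walks n 0 := by
  rw [mem_saws] at h
  rw [SawKes.mem_walks]
  refine ⟨length_lst w, ?_, ?_, ?_⟩
  · rw [List.head?_eq_getElem?, List.getElem?_eq_getElem (by rw [length_lst]; omega), getElem_lst,
      wN_zero h]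
  · rw [List.isChain_iff_getElem]
    intro i hi
    rw [length_lst] at hi
    rw [getElem_lst, getElem_lst]
    exact wN_adj h (by omega)
  · rw [lst, List.nodup_ofFn]
    exact h.2.2

lemma card_saws (n : ℕ) : (saws n).card = cc n := by
  classical
  rw [saws, Finset.card_image_of_injOn (path_injOn n)]
  rfl

lemma FT_Tend_le {n : ℕ} {w : Fin (n + 1) → ℤ × ℤ} (h : IsSAW n w) :
    (FT Tend (lst n w)).card ≤ (Ins n w).card := by
  classical
  have key : ∀ x ∈ FT Tend (lst n w), ∃ kf ∈ Ins n w, SawKes.sq (wN n w kf.1) = x := by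
    intro x hx
    unfold FT at hx
    rw [Finset.mem_filter] at hx
    obtain ⟨A, c, d, B, e, f, heq, hc, hd, he, hf, hel, hfl, h1, h2, h3⟩ := hx.2
    have hlen : (lst n w).length = A.length + 2 + B.length := by
      rw [heq]; simp only [List.length_append, List.length_cons, List.length_nil]
    rw [length_lst] at hlen
    have hk : A.length < n := by omega
    have ec : wN n w A.length = c := by
      rw [← getElem_lst w A.length (by rw [length_lst]; omega)]
      simp only [heq, List.append_assoc]
      rw [List.getElem_append_right (le_refl _)]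
      simp
    have ed : wN n w (A.length + 1) = d := by
      rw [← getElem_lst w (A.length + 1) (by rw [length_lst]; omega)]
      simp only [heq, List.append_assoc]
      rw [List.getElem_append_right (by omega)]
      simp
    have hcd : SawLim.adj c d := by
      have := wN_adj h hk
      rwa [ec, ed] at this
    have hn : ∀ z, z ∉ lst n w → ∀ j ≤ n, wN n w j ≠ z := by
      intro z hz j hj hzj
      apply hz
      rw [← hzj, ← getElem_lst w j (by rw [length_lst]; omega)]
      exact List.getElem_mem _
    have hcl : c ∈ lst n w := by rw [heq]; simp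
    have hdl : d ∈ lst n w := by rw [heq]; simp
    obtain ⟨s1, s2⟩ := square (a := c) (b := e) (c := f) (d := d) h1 h2 h3 hcd
      (fun h0 => hfl (h0 ▸ hcl)) (fun h0 => hel (h0 ▸ hdl))
    refine ⟨(A.length, e - c), ?_, ?_⟩
    · rw [mem_Ins, ec, ed]
      refine ⟨hk, adj_iff.1 h1, s2, ?_, ?_⟩
      · intro j hj
        rw [add_sub_cancel]
        exact hn e hel j hj
      · intro j hj
        rw [← s1]
        exact hn f hfl j hj
    · simp only
      rw [ec]; exact hc
  choose! g hg1 hg2 using key
  apply Finset.card_le_card_of_injOn g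
  · intro x hx
    exact hg1 x hx
  · intro x hx y hy hxy
    rw [← hg2 x hx, ← hg2 y hy, hxy]

/-- **Few insertions are exponentially rare.** -/
theorem few_ins : ∃ a : ℝ, 0 < a ∧ ∃ n₀ : ℕ, ∀ n : ℕ, n₀ ≤ n →
    (((saws n).filter (fun w => ((Ins n w).card : ℝ) < a * n)).card : ℝ) ≤
      Real.exp (-a * n) * mu ^ n := by
  classical
  obtain ⟨ε, hε, n₀, h0⟩ := AT_Tend
  refine ⟨ε, hε, n₀, fun n hn => ?_⟩
  have h1 := h0 n hn 0 (((saws n).filter (fun w => ((Ins n w).card : ℝ) < ε * n)).image (lst n)) ?_
  · rwa [Finset.card_image_of_injective _ lst_inj] at h1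
  · intro l hl
    rw [Finset.mem_image] at hl
    obtain ⟨w, hw, rfl⟩ := hl
    rw [Finset.mem_filter] at hw
    refine ⟨lst_mem hw.1, ?_⟩
    have h2 : ((FT Tend (lst n w)).card : ℝ) ≤ ((Ins n w).card : ℝ) := by
      exact_mod_cast FT_Tend_le (mem_saws.1 hw.1)
    linarith [hw.2]

end Pool.Agent.SawMrg
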