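import Pool.Agent.SawMrg.Iter

/-!
Concentration of the ratio of the number of insertions and the number of deletions.
-/

set_option autoImplicit false

open SawNu Pool.Agent.SawLim Pool.Agent.SawKes

namespace Pool.Agent.SawMrg

lemma mu_le_four : mu ≤ 4 := by
  have h := mu_pow_le 1
  rw [pow_one] at h
  have h1 := cc_mul 0 1
  have h2 : cc 1 ≤ 4 := by
    classical
    unfold cc
    calc (WS sqL 1).card ≤ ((SawKes.dirs).image (fun d => [d])).card := by
          apply Finset.card_le_card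
          intro l hl
          rw [mem_WS, Pool.Agent.SawLim.TW_sq] at hl
          obtain ⟨h1, h2, -⟩ := hl
          match l, h1 with
          | [d], _ =>
            rw [Finset.mem_image]
            refine ⟨d, ?_, rfl⟩
            exact (Pool.Agent.SawLim.mem_sqS true d).2 (h2 d (by simp))
      _ ≤ (SawKes.dirs).card := Finset.card_image_le
      _ = 4 := by decide
  have h3 : (cc 1 : ℝ) ≤ 4 := by exact_mod_cast h2
  linarith

open scoped Classical in
lemma up_point {n p j0 i0 : ℕ} {ε ψ : ℝ} (hε : 0 < ε) (hε1 : ε ≤ 1)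
    (hr : (1 + ε) * (mu ^ 2 * j0) ≤ i0) (hp : 400 * (mu ^ 2 * p) ≤ ε * i0) (hi : 0 < i0)
    (hcc : (cc (n + 2 * p) : ℝ) ≤ mu ^ (n + 2 * p) * Real.exp ψ) :
    (((saws n).filter (fun w => nJ n w = j0 ∧ nI n w = i0)).card : ℝ) ≤
      mu ^ n * Real.exp (ψ - ε * p / 8) := by
  have hmu := one_le_mu
  have hmu2 : 1 ≤ mu ^ 2 := one_le_pow₀ hmu
  have hi' : (0 : ℝ) < i0 := by exact_mod_cast hi
  have hp0 : (0 : ℝ) ≤ p := Nat.cast_nonneg p
  have hp1 : (400 : ℝ) * p ≤ ε * i0 := by nlinarith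
  have h18 : 18 * p ≤ i0 := by
    have : (18 : ℝ) * p ≤ i0 := by nlinarith
    exact_mod_cast this
  obtain ⟨i1, hi1⟩ : ∃ i1, i0 = i1 + 18 * p := ⟨i0 - 18 * p, by omega⟩
  have h1 := up_iter p n j0 i1
  have h2 : ((saws n).filter (fun w => nJ n w = j0 ∧ nI n w = i0)).card ≤
      ((saws n).filter (fun w => nJ n w ≤ j0 ∧ i1 + 18 * p ≤ nI n w)).card := by
    apply Finset.card_le_card
    intro w hw
    rw [Finset.mem_filter] at hw ⊢
    exact ⟨hw.1, by omega, by omega⟩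
  have h3 := (Nat.mul_le_mul_right (i1 ^ p) h2).trans h1
  generalize ((saws n).filter (fun w => nJ n w = j0 ∧ nI n w = i0)).card = N at h3 ⊢
  have h4 : (N : ℝ) * (i1 : ℝ) ^ p ≤ cc (n + 2 * p) * ((j0 : ℝ) + 5 * p) ^ p := by
    exact_mod_cast h3
  have hi1R : (i0 : ℝ) = i1 + 18 * p := by exact_mod_cast hi1
  have hi1pos : (0 : ℝ) < i1 := by nlinarith
  have hkey : mu ^ 2 * ((j0 : ℝ) + 5 * p) ≤ (1 - ε / 8) * i1 := by
    have k1 : mu ^ 2 * j0 ≤ (1 - ε / 2) * i0 := by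
      have : (1 + ε) * (mu ^ 2 * j0) ≤ (1 + ε) * ((1 - ε / 2) * i0) := by
        refine hr.trans ?_
        have : 1 ≤ (1 + ε) * (1 - ε / 2) := by nlinarith
        nlinarith
      exact le_of_mul_le_mul_left this (by linarith)
    have k2 : mu ^ 2 * (5 * p) ≤ ε / 80 * i0 := by linarith
    have k3 : (18 : ℝ) * p ≤ ε / 20 * i0 := by nlinarith
    have k4 : (1 - ε / 8) * ((1 - ε / 20) * i0) ≤ (1 - ε / 8) * i1 := by
      apply mul_le_mul_of_nonneg_left _ (by linarith)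
      rw [hi1R] at k3 ⊢
      linarith
    have k5 : (1 - ε / 2 + ε / 80) ≤ (1 - ε / 8) * (1 - ε / 20) := by nlinarith
    calc mu ^ 2 * ((j0 : ℝ) + 5 * p) = mu ^ 2 * j0 + mu ^ 2 * (5 * p) := by ring
      _ ≤ (1 - ε / 2 + ε / 80) * i0 := by linarith
      _ ≤ ((1 - ε / 8) * (1 - ε / 20)) * i0 := mul_le_mul_of_nonneg_right k5 hi'.le
      _ = (1 - ε / 8) * ((1 - ε / 20) * i0) := by ring
      _ ≤ _ := k4
  have h5 : (N : ℝ) * (i1 : ℝ) ^ p ≤
      (mu ^ n * Real.exp (ψ - ε * p / 8)) * (i1 : ℝ) ^ p := by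
    calc (N : ℝ) * (i1 : ℝ) ^ p ≤ cc (n + 2 * p) * ((j0 : ℝ) + 5 * p) ^ p := h4
      _ ≤ (mu ^ (n + 2 * p) * Real.exp ψ) * ((j0 : ℝ) + 5 * p) ^ p :=
          mul_le_mul_of_nonneg_right hcc (by positivity)
      _ = mu ^ n * Real.exp ψ * (mu ^ 2 * ((j0 : ℝ) + 5 * p)) ^ p := by
          rw [pow_add, pow_mul, mul_pow]; ring
      _ ≤ mu ^ n * Real.exp ψ * ((1 - ε / 8) * i1) ^ p := by
          apply mul_le_mul_of_nonneg_left _ (by positivity)
          exact pow_le_pow_left₀ (by positivity) hkey p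
      _ = mu ^ n * Real.exp ψ * (1 - ε / 8) ^ p * (i1 : ℝ) ^ p := by rw [mul_pow]; ring
      _ ≤ mu ^ n * Real.exp ψ * Real.exp (-(ε * p / 8)) * (i1 : ℝ) ^ p := by
          apply mul_le_mul_of_nonneg_right _ (by positivity)
          apply mul_le_mul_of_nonneg_left _ (by positivity)
          have : Real.exp (-(ε * p / 8)) = (Real.exp (-(ε / 8))) ^ p := by
            rw [← Real.exp_nat_mul]; congr 1; ring
          rw [this]
          apply pow_le_pow_left₀ (by linarith)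
          have := Real.add_one_le_exp (-(ε / 8))
          linarith
      _ = _ := by rw [mul_assoc (mu ^ n), ← Real.exp_add]; congr 3
  exact le_of_mul_le_mul_right h5 (by positivity)

open scoped Classical in
lemma down_point {m n p j0 i0 : ℕ} {ε ψ : ℝ} (hε : 0 < ε) (hε1 : ε ≤ 1) (hm : m = n + 2 * p)
    (hr : (1 + ε) * i0 ≤ mu ^ 2 * j0) (hp : 400 * (mu ^ 2 * p) ≤ ε * i0) (hi : 0 < i0)
    (hcc : (cc n : ℝ) ≤ mu ^ n * Real.exp ψ) :
    (((saws m).filter (fun w => nJ m w = j0 ∧ nI m w = i0)).card : ℝ) ≤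
      mu ^ m * Real.exp (ψ - ε * p / 8) := by
  have hmu := one_le_mu
  have hmu2 : 1 ≤ mu ^ 2 := one_le_pow₀ hmu
  have hi' : (0 : ℝ) < i0 := by exact_mod_cast hi
  have hp0 : (0 : ℝ) ≤ p := Nat.cast_nonneg p
  have hp1 : (400 : ℝ) * p ≤ ε * i0 := by nlinarith
  have h18 : 5 * p ≤ j0 := by
    have h1 : mu ^ 2 * ((5 : ℝ) * p) ≤ mu ^ 2 * j0 := by nlinarith
    have : (5 : ℝ) * p ≤ j0 := le_of_mul_le_mul_left h1 (by positivity)
    exact_mod_cast this
  obtain ⟨j1, hj1⟩ : ∃ j1, j0 = j1 + 5 * p := ⟨j0 - 5 * p, by omega⟩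
  have h1 := down_iter p m n j1 i0 hm
  have h2 : ((saws m).filter (fun w => nJ m w = j0 ∧ nI m w = i0)).card ≤
      ((saws m).filter (fun w => j1 + 5 * p ≤ nJ m w ∧ nI m w ≤ i0)).card := by
    apply Finset.card_le_card
    intro w hw
    rw [Finset.mem_filter] at hw ⊢
    exact ⟨hw.1, by omega, by omega⟩
  have h3 := (Nat.mul_le_mul_right (j1 ^ p) h2).trans h1
  generalize ((saws m).filter (fun w => nJ m w = j0 ∧ nI m w = i0)).card = N at h3 ⊢
  have h4 : (N : ℝ) * (j1 : ℝ) ^ p ≤ cc n * ((i0 : ℝ) + 18 * p) ^ p := by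
    exact_mod_cast h3
  have hj1R : (j0 : ℝ) = j1 + 5 * p := by exact_mod_cast hj1
  have hkey : ((i0 : ℝ) + 18 * p) ≤ (1 - ε / 8) * (mu ^ 2 * j1) := by
    have k2 : mu ^ 2 * (5 * p) ≤ ε / 80 * i0 := by linarith
    have k3 : (18 : ℝ) * p ≤ ε / 20 * i0 := by nlinarith
    have k4 : (1 + ε - ε / 80) * i0 ≤ mu ^ 2 * j1 := by
      have : mu ^ 2 * j1 = mu ^ 2 * j0 - mu ^ 2 * (5 * p) := by rw [hj1R]; ring
      rw [this]
      linarith
    have k5 : (1 + ε / 20) ≤ (1 - ε / 8) * (1 + ε - ε / 80) := by nlinarith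
    calc ((i0 : ℝ) + 18 * p) ≤ (1 + ε / 20) * i0 := by linarith
      _ ≤ ((1 - ε / 8) * (1 + ε - ε / 80)) * i0 := mul_le_mul_of_nonneg_right k5 hi'.le
      _ = (1 - ε / 8) * ((1 + ε - ε / 80) * i0) := by ring
      _ ≤ _ := mul_le_mul_of_nonneg_left k4 (by linarith)
  have hpos : 0 < mu ^ 2 * (j1 : ℝ) := by
    have : 0 < (i0 : ℝ) + 18 * p := by positivity
    by_contra hc
    push Not at hc
    have : (1 - ε / 8) * (mu ^ 2 * j1) ≤ 0 := mul_nonpos_of_nonneg_of_nonpos (by linarith) hc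
    linarith
  have h5 : (N : ℝ) * (mu ^ 2 * (j1 : ℝ)) ^ p ≤
      (mu ^ m * Real.exp (ψ - ε * p / 8)) * (mu ^ 2 * (j1 : ℝ)) ^ p := by
    calc (N : ℝ) * (mu ^ 2 * (j1 : ℝ)) ^ p = mu ^ (2 * p) * ((N : ℝ) * (j1 : ℝ) ^ p) := by
          rw [mul_pow, pow_mul]; ring
      _ ≤ mu ^ (2 * p) * (cc n * ((i0 : ℝ) + 18 * p) ^ p) :=
          mul_le_mul_of_nonneg_left h4 (by positivity)
      _ ≤ mu ^ (2 * p) * ((mu ^ n * Real.exp ψ) * ((i0 : ℝ) + 18 * p) ^ p) := by
          apply mul_le_mul_of_nonneg_left _ (by positivity)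
          exact mul_le_mul_of_nonneg_right hcc (by positivity)
      _ = mu ^ m * Real.exp ψ * ((i0 : ℝ) + 18 * p) ^ p := by
          rw [hm, pow_add]; ring
      _ ≤ mu ^ m * Real.exp ψ * ((1 - ε / 8) * (mu ^ 2 * j1)) ^ p := by
          apply mul_le_mul_of_nonneg_left _ (by positivity)
          exact pow_le_pow_left₀ (by positivity) hkey p
      _ = mu ^ m * Real.exp ψ * (1 - ε / 8) ^ p * (mu ^ 2 * (j1 : ℝ)) ^ p := by
          rw [mul_pow]; ring
      _ ≤ mu ^ m * Real.exp ψ * Real.exp (-(ε * p / 8)) * (mu ^ 2 * (j1 : ℝ)) ^ p := by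
          apply mul_le_mul_of_nonneg_right _ (by positivity)
          apply mul_le_mul_of_nonneg_left _ (by positivity)
          have : Real.exp (-(ε * p / 8)) = (Real.exp (-(ε / 8))) ^ p := by
            rw [← Real.exp_nat_mul]; congr 1; ring
          rw [this]
          apply pow_le_pow_left₀ (by linarith)
          have := Real.add_one_le_exp (-(ε / 8))
          linarith
      _ = _ := by rw [mul_assoc (mu ^ m), ← Real.exp_add]; congr 3
  exact le_of_mul_le_mul_right h5 (by positivity)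

end Pool.Agent.SawMrg
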