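import Pool.Agent.SawMrg.Conc

/-!
Concentration of the ratio of the number of insertions and the number of deletions (conclusion).
-/

set_option autoImplicit false

open SawNu Pool.Agent.SawLim Pool.Agent.SawKes

namespace Pool.Agent.SawMrg

/-- the ratio of insertions and deletions is off -/
def Off (ε : ℝ) (j i : ℕ) : Prop :=
  (1 + ε) * (mu ^ 2 * (j : ℝ)) ≤ i ∨ (1 + ε) * (i : ℝ) ≤ mu ^ 2 * j

open scoped Classical in
lemma ratio_bad (n : ℕ) (a ε B : ℝ) (hB : 0 ≤ B)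
    (hpt : ∀ j0 i0 : ℕ, a * n ≤ i0 → Off ε j0 i0 →
      (((saws n).filter (fun w => nJ n w = j0 ∧ nI n w = i0)).card : ℝ) ≤ B) :
    (((saws n).filter (fun w => a * n ≤ nI n w ∧ Off ε (nJ n w) (nI n w))).card : ℝ) ≤
      ((n + 1) * (4 * n + 1)) * B := by
  have hsub : (saws n).filter (fun w => a * n ≤ nI n w ∧ Off ε (nJ n w) (nI n w)) ⊆
      ((Finset.range (n + 1) ×ˢ Finset.range (4 * n + 1)).filter
        (fun p => a * n ≤ (p.2 : ℝ) ∧ Off ε p.1 p.2)).biUnion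
        (fun p => (saws n).filter (fun w => nJ n w = p.1 ∧ nI n w = p.2)) := by
    intro w hw
    rw [Finset.mem_filter] at hw
    rw [Finset.mem_biUnion]
    refine ⟨(nJ n w, nI n w), ?_, ?_⟩
    · rw [Finset.mem_filter, Finset.mem_product, Finset.mem_range, Finset.mem_range]
      have h1 := nI_le w
      have h2 := nJ_le w
      exact ⟨⟨by omega, by omega⟩, hw.2⟩
    · rw [Finset.mem_filter]
      exact ⟨hw.1, rfl, rfl⟩
  have h1 := (Finset.card_le_card hsub).trans Finset.card_biUnion_le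
  calc (((saws n).filter (fun w => a * n ≤ nI n w ∧ Off ε (nJ n w) (nI n w))).card : ℝ)
      ≤ ((∑ p ∈ (Finset.range (n + 1) ×ˢ Finset.range (4 * n + 1)).filter
        (fun p => a * n ≤ (p.2 : ℝ) ∧ Off ε p.1 p.2),
        ((saws n).filter (fun w => nJ n w = p.1 ∧ nI n w = p.2)).card : ℕ) : ℝ) := by
          exact_mod_cast h1
    _ = ∑ p ∈ (Finset.range (n + 1) ×ˢ Finset.range (4 * n + 1)).filter
        (fun p => a * n ≤ (p.2 : ℝ) ∧ Off ε p.1 p.2),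
        (((saws n).filter (fun w => nJ n w = p.1 ∧ nI n w = p.2)).card : ℝ) := by push_cast; rfl
    _ ≤ ∑ p ∈ (Finset.range (n + 1) ×ˢ Finset.range (4 * n + 1)).filter
        (fun p => a * n ≤ (p.2 : ℝ) ∧ Off ε p.1 p.2), B := by
          apply Finset.sum_le_sum
          intro p hp
          rw [Finset.mem_filter] at hp
          exact hpt p.1 p.2 hp.2.1 hp.2.2
    _ = (((Finset.range (n + 1) ×ˢ Finset.range (4 * n + 1)).filter
        (fun p => a * n ≤ (p.2 : ℝ) ∧ Off ε p.1 p.2)).card : ℝ) * B := by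
          rw [Finset.sum_const, nsmul_eq_mul]
    _ ≤ ((n + 1) * (4 * n + 1)) * B := by
          apply mul_le_mul_of_nonneg_right _ hB
          have h2 := Finset.card_filter_le (Finset.range (n + 1) ×ˢ Finset.range (4 * n + 1))
            (fun p => a * n ≤ (p.2 : ℝ) ∧ Off ε p.1 p.2)
          rw [Finset.card_product, Finset.card_range, Finset.card_range] at h2
          exact_mod_cast h2

/-- asymptotics of the exponents -/
lemma ev_bounds (δ c : ℝ) (hδ : 0 < δ) (hc : 0 < c) : ∃ n₀ : ℕ, ∀ n : ℕ, n₀ ≤ n →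
    ((n : ℝ) + 1) * (4 * n + 1) ≤ Real.exp ((n : ℝ) ^ δ) ∧ (1 : ℝ) / 8 ≤ (n : ℝ) ^ δ ∧
    6 * (n : ℝ) ^ δ ≤ c * (n : ℝ) ^ (2 * δ) := by
  have ev1 : ∀ᶠ x : ℝ in Filter.atTop, Real.log x ≤ (1 / 3) * x ^ δ := by
    have := (isLittleO_log_rpow_atTop hδ).bound (c := 1 / 3) (by norm_num)
    filter_upwards [this, Filter.eventually_ge_atTop (1 : ℝ)] with x hx hx1
    rw [Real.norm_of_nonneg (Real.log_nonneg hx1),
      Real.norm_of_nonneg (by positivity)] at hx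
    exact hx
  have e1 := tendsto_natCast_atTop_atTop.eventually ev1
  have e2 : ∀ᶠ n : ℕ in Filter.atTop, max (1 / 8) (6 / c) ≤ (n : ℝ) ^ δ :=
    ((tendsto_rpow_atTop hδ).comp tendsto_natCast_atTop_atTop).eventually_ge_atTop _
  obtain ⟨n₀, h0⟩ := Filter.eventually_atTop.1 ((e1.and e2).and (Filter.eventually_ge_atTop 10))
  refine ⟨n₀, fun n hn => ?_⟩
  obtain ⟨⟨h1, h2⟩, h3⟩ := h0 n hn
  have hn10 : (10 : ℝ) ≤ n := by exact_mod_cast h3
  have hn0 : (0 : ℝ) < n := by linarith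
  refine ⟨?_, (le_max_left _ _).trans h2, ?_⟩
  · have h4 : ((n : ℝ) + 1) * (4 * n + 1) ≤ (n : ℝ) ^ 3 := by
      have g1 : 10 * (n : ℝ) ≤ (n : ℝ) ^ 2 := by nlinarith
      have g2 : 10 * (n : ℝ) ^ 2 ≤ (n : ℝ) ^ 3 := by
        have : (n : ℝ) ^ 3 = n * (n : ℝ) ^ 2 := by ring
        rw [this]
        exact mul_le_mul_of_nonneg_right hn10 (by positivity)
      have g3 : ((n : ℝ) + 1) * (4 * n + 1) = 4 * (n : ℝ) ^ 2 + 5 * n + 1 := by ring
      rw [g3]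
      linarith
    refine h4.trans ?_
    have h5 : (n : ℝ) ^ 3 = Real.exp (3 * Real.log n) := by
      rw [mul_comm, Real.exp_mul, Real.exp_log hn0]
      norm_num
    rw [h5]
    apply Real.exp_le_exp.2
    linarith
  · have h4 : 6 / c ≤ (n : ℝ) ^ δ := (le_max_right _ _).trans h2
    rw [div_le_iff₀ hc] at h4
    have h5 : (n : ℝ) ^ (2 * δ) = (n : ℝ) ^ δ * (n : ℝ) ^ δ := by
      rw [← Real.rpow_add hn0]; congr 1; ring
    rw [h5]
    have h6 : 0 ≤ (n : ℝ) ^ δ := by positivity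
    nlinarith

open scoped Classical in
/-- **Concentration of the ratio.** -/
theorem conc (δ : ℝ) (hδ : 0 < δ) (hδ' : δ < 1 / 2) (a : ℝ) (ha : 0 < a) (ha1 : a ≤ 1) :
    ∃ n₀ : ℕ, ∀ n : ℕ, n₀ ≤ n →
    (((saws n).filter (fun w => a * n ≤ nI n w ∧
      Off ((n : ℝ) ^ (δ - 1 / 2)) (nJ n w) (nI n w))).card : ℝ) ≤
      Real.exp (-(n : ℝ) ^ δ) * mu ^ n := by
  have hmu := one_le_mu
  have hmu2 : 1 ≤ mu ^ 2 := one_le_pow₀ hmu
  obtain ⟨n₁, h₁⟩ := hw_bound δ hδ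
  obtain ⟨n₂, h₂⟩ := ev_bounds δ (a / (3200 * mu ^ 2)) hδ (by positivity)
  refine ⟨max (2 * n₁) (max n₂ 1), fun n hn => ?_⟩
  have hn1 : 2 * n₁ ≤ n := (le_max_left _ _).trans hn
  have hn2 : n₂ ≤ n := ((le_max_left _ _).trans (le_max_right _ _)).trans hn
  have hn3 : 1 ≤ n := ((le_max_right _ _).trans (le_max_right _ _)).trans hn
  obtain ⟨b1, b2, b3⟩ := h₂ n hn2
  have hnR : (1 : ℝ) ≤ n := by exact_mod_cast hn3
  have hn0 : (0 : ℝ) < n := by linarith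
  obtain ⟨ε, hεd⟩ : ∃ ε : ℝ, ε = (n : ℝ) ^ (δ - 1 / 2) := ⟨_, rfl⟩
  have hε : 0 < ε := by rw [hεd]; positivity
  have hε1 : ε ≤ 1 := by
    rw [hεd]; exact Real.rpow_le_one_of_one_le_of_nonpos hnR (by linarith)
  have hεn : ε ^ 2 * n = (n : ℝ) ^ (2 * δ) := by
    rw [hεd, ← Real.rpow_natCast, ← Real.rpow_mul hn0.le]
    nth_rw 2 [← Real.rpow_one (n : ℝ)]
    rw [← Real.rpow_add hn0]
    congr 1
    push_cast
    ring
  rw [← hεd]
  obtain ⟨p, hp⟩ : ∃ p : ℕ, p = ⌊ε * a * n / (400 * mu ^ 2)⌋₊ := ⟨_, rfl⟩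
  have hp1 : (p : ℝ) ≤ ε * a * n / (400 * mu ^ 2) := by rw [hp]; exact Nat.floor_le (by positivity)
  have hp2 : ε * a * n / (400 * mu ^ 2) - 1 ≤ p := by
    rw [hp]
    have := Nat.lt_floor_add_one (ε * a * n / (400 * mu ^ 2))
    linarith
  have hp3 : 400 * (mu ^ 2 * p) ≤ ε * (a * n) := by
    rw [le_div_iff₀ (by positivity)] at hp1
    linarith
  have hpn : 4 * p ≤ n := by
    have h1 : (400 : ℝ) * p ≤ n := by
      have : ε * (a * n) ≤ n := by
        have : ε * a ≤ 1 := by nlinarith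
        nlinarith
      nlinarith [Nat.cast_nonneg (α := ℝ) p]
    have h2 : 400 * p ≤ n := by exact_mod_cast h1
    omega
  -- the point bound
  have hψ1 : (cc (n + 2 * p) : ℝ) ≤ mu ^ (n + 2 * p) * Real.exp (3 * (n : ℝ) ^ δ) := by
    refine (h₁ (n + 2 * p) (by omega)).trans ?_
    apply mul_le_mul_of_nonneg_left _ (by positivity)
    apply Real.exp_le_exp.2
    have h3 : ((n + 2 * p : ℕ) : ℝ) ≤ 3 * n := by
      have : n + 2 * p ≤ 3 * n := by omega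
      exact_mod_cast this
    calc (((n + 2 * p : ℕ) : ℝ)) ^ δ ≤ (3 * (n : ℝ)) ^ δ :=
          Real.rpow_le_rpow (Nat.cast_nonneg _) h3 hδ.le
      _ = 3 ^ δ * (n : ℝ) ^ δ := Real.mul_rpow (by norm_num) hn0.le
      _ ≤ 3 * (n : ℝ) ^ δ := by
          apply mul_le_mul_of_nonneg_right _ (by positivity)
          calc (3 : ℝ) ^ δ ≤ 3 ^ (1 : ℝ) :=
                Real.rpow_le_rpow_of_exponent_le (by norm_num) (by linarith)
            _ = 3 := Real.rpow_one 3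
  have hψ2 : (cc (n - 2 * p) : ℝ) ≤ mu ^ (n - 2 * p) * Real.exp (3 * (n : ℝ) ^ δ) := by
    refine (h₁ (n - 2 * p) (by omega)).trans ?_
    apply mul_le_mul_of_nonneg_left _ (by positivity)
    apply Real.exp_le_exp.2
    have h3 : ((n - 2 * p : ℕ) : ℝ) ≤ n := by
      exact_mod_cast Nat.sub_le _ _
    have h4 := Real.rpow_le_rpow (Nat.cast_nonneg _) h3 hδ.le
    have h5 : 0 ≤ (n : ℝ) ^ δ := by positivity
    linarith
  have hexp : 3 * (n : ℝ) ^ δ - ε * p / 8 ≤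
      3 * (n : ℝ) ^ δ + (n : ℝ) ^ δ - a / (3200 * mu ^ 2) * (n : ℝ) ^ (2 * δ) := by
    have k1 : ε * (ε * a * n / (400 * mu ^ 2) - 1) ≤ ε * p := mul_le_mul_of_nonneg_left hp2 hε.le
    have k2 : ε * (ε * a * n / (400 * mu ^ 2)) = 8 * (a / (3200 * mu ^ 2) * (n : ℝ) ^ (2 * δ)) := by
      rw [← hεn]; field_simp; ring
    have k3 : ε * (ε * a * n / (400 * mu ^ 2) - 1) = ε * (ε * a * n / (400 * mu ^ 2)) - ε := by ring
    rw [k3, k2] at k1
    linarith
  have hB := ratio_bad n a ε (mu ^ n * Real.exp (3 * (n : ℝ) ^ δ - ε * p / 8)) (by positivity) ?_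
  · refine hB.trans ?_
    calc ((n : ℝ) + 1) * (4 * n + 1) * (mu ^ n * Real.exp (3 * (n : ℝ) ^ δ - ε * p / 8))
        ≤ Real.exp ((n : ℝ) ^ δ) * (mu ^ n * Real.exp (3 * (n : ℝ) ^ δ - ε * p / 8)) :=
          mul_le_mul_of_nonneg_right b1 (by positivity)
      _ = Real.exp ((n : ℝ) ^ δ + (3 * (n : ℝ) ^ δ - ε * p / 8)) * mu ^ n := by
          rw [Real.exp_add]; ring
      _ ≤ Real.exp (-(n : ℝ) ^ δ) * mu ^ n := by
          apply mul_le_mul_of_nonneg_right _ (by positivity)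
          apply Real.exp_le_exp.2
          linarith
  · intro j0 i0 hi0 hoff
    have hi0' : (0 : ℝ) < i0 := lt_of_lt_of_le (by positivity) hi0
    have hp4 : 400 * (mu ^ 2 * p) ≤ ε * i0 :=
      hp3.trans (mul_le_mul_of_nonneg_left hi0 hε.le)
    rcases hoff with hoff | hoff
    · exact up_point hε hε1 hoff hp4 (by exact_mod_cast hi0') hψ1
    · exact down_point (n := n - 2 * p) hε hε1 (by omega) hoff hp4 (by exact_mod_cast hi0') hψ2

/-- the good walks -/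
def Good (a ε : ℝ) (n : ℕ) (w : Fin (n + 1) → ℤ × ℤ) : Prop :=
  a * n ≤ nI n w ∧ ¬ Off ε (nJ n w) (nI n w)

open scoped Classical in
/-- **Good walks are typical.** -/
theorem good_typical : ∃ a : ℝ, 0 < a ∧ a ≤ 1 ∧ ∀ δ : ℝ, 0 < δ → δ < 1 / 2 →
    ∃ n₀ : ℕ, ∀ n : ℕ, n₀ ≤ n →
    (((saws n).filter (fun w => ¬ Good a ((n : ℝ) ^ (δ - 1 / 2)) n w)).card : ℝ) ≤
      2 * (Real.exp (-(n : ℝ) ^ δ) * mu ^ n) := by
  obtain ⟨a, ha, n₁, h₁⟩ := few_ins
  refine ⟨min a 1, lt_min ha one_pos, min_le_right _ _, fun δ hδ hδ' => ?_⟩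
  obtain ⟨n₂, h₂⟩ := conc δ hδ hδ' (min a 1) (lt_min ha one_pos) (min_le_right _ _)
  obtain ⟨n₃, h₃⟩ : ∃ n₃ : ℕ, ∀ n : ℕ, n₃ ≤ n → (n : ℝ) ^ δ ≤ a * n := by
    have h : ∀ᶠ n : ℕ in Filter.atTop, 1 / a ≤ (n : ℝ) ^ (1 - δ) :=
      ((tendsto_rpow_atTop (by linarith : 0 < 1 - δ)).comp
        tendsto_natCast_atTop_atTop).eventually_ge_atTop _
    obtain ⟨n₃, h3⟩ := Filter.eventually_atTop.1 (h.and (Filter.eventually_ge_atTop 1))
    refine ⟨n₃, fun n hn => ?_⟩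
    obtain ⟨h4, h5⟩ := h3 n hn
    have hn0 : (0 : ℝ) < n := by exact_mod_cast h5
    rw [div_le_iff₀ ha] at h4
    have h6 : (n : ℝ) = (n : ℝ) ^ δ * (n : ℝ) ^ (1 - δ) := by
      rw [← Real.rpow_add hn0]
      simp
    have h7 : 0 < (n : ℝ) ^ δ := by positivity
    calc (n : ℝ) ^ δ = (n : ℝ) ^ δ * 1 := by ring
      _ ≤ (n : ℝ) ^ δ * ((n : ℝ) ^ (1 - δ) * a) := mul_le_mul_of_nonneg_left h4 h7.le
      _ = a * ((n : ℝ) ^ δ * (n : ℝ) ^ (1 - δ)) := by ring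
      _ = a * n := by rw [← h6]
  refine ⟨max n₁ (max n₂ n₃), fun n hn => ?_⟩
  have k1 := h₁ n ((le_max_left _ _).trans hn)
  have k2 := h₂ n (((le_max_left _ _).trans (le_max_right _ _)).trans hn)
  have k3 := h₃ n (((le_max_right _ _).trans (le_max_right _ _)).trans hn)
  have hsub : (saws n).filter (fun w => ¬ Good (min a 1) ((n : ℝ) ^ (δ - 1 / 2)) n w) ⊆
      (saws n).filter (fun w => ((Ins n w).card : ℝ) < a * n) ∪
      (saws n).filter (fun w => min a 1 * n ≤ nI n w ∧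
      Off ((n : ℝ) ^ (δ - 1 / 2)) (nJ n w) (nI n w)) := by
    intro w hw
    rw [Finset.mem_filter] at hw
    rw [Finset.mem_union, Finset.mem_filter, Finset.mem_filter]
    by_cases hc : min a 1 * (n : ℝ) ≤ nI n w
    · right
      refine ⟨hw.1, hc, ?_⟩
      by_contra h
      exact hw.2 ⟨hc, h⟩
    · left
      push Not at hc
      refine ⟨hw.1, lt_of_lt_of_le hc ?_⟩
      exact mul_le_mul_of_nonneg_right (min_le_left _ _) (Nat.cast_nonneg _)
  have h4 := (Finset.card_le_card hsub).trans (Finset.card_union_le _ _)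
  have h5 : (((saws n).filter (fun w => ¬ Good (min a 1) ((n : ℝ) ^ (δ - 1 / 2)) n w)).card : ℝ) ≤
      ((saws n).filter (fun w => ((Ins n w).card : ℝ) < a * n)).card +
      ((saws n).filter (fun w => min a 1 * n ≤ nI n w ∧
      Off ((n : ℝ) ^ (δ - 1 / 2)) (nJ n w) (nI n w))).card := by exact_mod_cast h4
  have h6 : Real.exp (-a * n) * mu ^ n ≤ Real.exp (-(n : ℝ) ^ δ) * mu ^ n := by
    apply mul_le_mul_of_nonneg_right _ (pow_nonneg mu_pos.le _)
    apply Real.exp_le_exp.2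
    linarith
  linarith

end Pool.Agent.SawMrg
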