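import Pool.Agent.SawMrg.Low
import Pool.Agent.SawMrg.HW

/-!
Chains of bump insertions and deletions.
-/

set_option autoImplicit false

open SawNu Pool.Agent.SawLim Pool.Agent.SawKes

namespace Pool.Agent.SawMrg

/-- number of insertions -/
noncomputable def nI (n : ℕ) (w : Fin (n + 1) → ℤ × ℤ) : ℕ := (Ins n w).card

/-- number of deletions -/
noncomputable def nJ (n : ℕ) (w : Fin (n + 1) → ℤ × ℤ) : ℕ := (Del n w).card

lemma nI_le {n : ℕ} (w : Fin (n + 1) → ℤ × ℤ) : nI n w ≤ 4 * n := card_Ins_le w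

lemma nJ_le {n : ℕ} (w : Fin (n + 1) → ℤ × ℤ) : nJ n w ≤ n := (card_Del_le w).trans (by omega)

open scoped Classical in
/-- one insertion -/
lemma up_step (n j0 i0 : ℕ) :
    ((saws n).filter (fun w => nJ n w ≤ j0 ∧ i0 + 18 ≤ nI n w)).card * (i0 + 18) ≤
      ((saws (n + 2)).filter (fun v => nJ (n + 2) v ≤ j0 + 5 ∧ i0 ≤ nI (n + 2) v)).card *
        (j0 + 5) := by
  have h := sum_moves (M := ℕ) n
    (fun w _ _ _ => if nJ n w ≤ j0 ∧ i0 + 18 ≤ nI n w then 1 else 0)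
  have h1 : ((saws n).filter (fun w => nJ n w ≤ j0 ∧ i0 + 18 ≤ nI n w)).card * (i0 + 18) ≤
      ∑ w ∈ saws n, ∑ p ∈ Ins n w, (if nJ n w ≤ j0 ∧ i0 + 18 ≤ nI n w then 1 else 0) := by
    rw [Finset.card_filter, Finset.sum_mul]
    apply Finset.sum_le_sum
    intro w _
    rw [Finset.sum_const, smul_eq_mul]
    split_ifs with hc
    · have := hc.2
      unfold nI at this
      omega
    · simp
  have h2 : ∑ v ∈ saws (n + 2), ∑ k ∈ Del (n + 2) v,
      (if nJ n (del n v k) ≤ j0 ∧ i0 + 18 ≤ nI n (del n v k) then 1 else 0) ≤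
      ((saws (n + 2)).filter (fun v => nJ (n + 2) v ≤ j0 + 5 ∧ i0 ≤ nI (n + 2) v)).card *
        (j0 + 5) := by
    rw [Finset.card_filter, Finset.sum_mul]
    apply Finset.sum_le_sum
    intro v hv
    rw [mem_saws] at hv
    by_cases hc : nJ (n + 2) v ≤ j0 + 5 ∧ i0 ≤ nI (n + 2) v
    · rw [if_pos hc, one_mul]
      calc ∑ k ∈ Del (n + 2) v, (if nJ n (del n v k) ≤ j0 ∧ i0 + 18 ≤ nI n (del n v k) then 1 else 0)
          ≤ ∑ k ∈ Del (n + 2) v, 1 := Finset.sum_le_sum (fun k _ => by split_ifs <;> omega)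
        _ = nJ (n + 2) v := by rw [Finset.sum_const, smul_eq_mul, mul_one]; rfl
        _ ≤ j0 + 5 := hc.1
    · rw [if_neg hc, zero_mul, Nat.le_zero]
      apply Finset.sum_eq_zero
      intro k hk
      rw [if_neg]
      intro hd
      apply hc
      have hs := isSAW_del hv hk
      have hI := mem_Ins_del hv hk
      have e := ins_del hv hk
      have k1 := card_Del_ins_le (del n v k) (wN (n + 2) v (k + 1) - wN (n + 2) v k)
        (mem_Ins.1 hI).1
      have k2 := card_Ins_le_ins hs hI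
      rw [e] at k1 k2
      unfold nJ nI at hd ⊢
      omega
  exact h1.trans (h.le.trans h2)

open scoped Classical in
/-- one deletion -/
lemma down_step (n j0 i0 : ℕ) :
    ((saws (n + 2)).filter (fun v => j0 + 5 ≤ nJ (n + 2) v ∧ nI (n + 2) v ≤ i0)).card * (j0 + 5) ≤
      ((saws n).filter (fun w => j0 ≤ nJ n w ∧ nI n w ≤ i0 + 18)).card * (i0 + 18) := by
  have h := sum_moves (M := ℕ) n
    (fun _ _ _ v => if j0 + 5 ≤ nJ (n + 2) v ∧ nI (n + 2) v ≤ i0 then 1 else 0)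
  have h1 : ((saws (n + 2)).filter (fun v => j0 + 5 ≤ nJ (n + 2) v ∧ nI (n + 2) v ≤ i0)).card *
      (j0 + 5) ≤ ∑ v ∈ saws (n + 2), ∑ k ∈ Del (n + 2) v,
      (if j0 + 5 ≤ nJ (n + 2) v ∧ nI (n + 2) v ≤ i0 then 1 else 0) := by
    rw [Finset.card_filter, Finset.sum_mul]
    apply Finset.sum_le_sum
    intro w _
    rw [Finset.sum_const, smul_eq_mul]
    split_ifs with hc
    · have := hc.1
      unfold nJ at this
      omega
    · simp
  have h2 : ∑ w ∈ saws n, ∑ p ∈ Ins n w,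
      (if j0 + 5 ≤ nJ (n + 2) (ins n w p.1 p.2) ∧ nI (n + 2) (ins n w p.1 p.2) ≤ i0
        then 1 else 0) ≤
      ((saws n).filter (fun w => j0 ≤ nJ n w ∧ nI n w ≤ i0 + 18)).card * (i0 + 18) := by
    rw [Finset.card_filter, Finset.sum_mul]
    apply Finset.sum_le_sum
    intro w hw
    rw [mem_saws] at hw
    by_cases hc : j0 ≤ nJ n w ∧ nI n w ≤ i0 + 18
    · rw [if_pos hc, one_mul]
      calc ∑ p ∈ Ins n w, (if j0 + 5 ≤ nJ (n + 2) (ins n w p.1 p.2) ∧
            nI (n + 2) (ins n w p.1 p.2) ≤ i0 then 1 else 0)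
          ≤ ∑ k ∈ Ins n w, 1 := Finset.sum_le_sum (fun k _ => by split_ifs <;> omega)
        _ = nI n w := by rw [Finset.sum_const, smul_eq_mul, mul_one]; rfl
        _ ≤ i0 + 18 := hc.2
    · rw [if_neg hc, zero_mul, Nat.le_zero]
      apply Finset.sum_eq_zero
      rintro ⟨k, f⟩ hk
      rw [if_neg]
      intro hd
      apply hc
      have k1 := card_Del_ins_le w f (mem_Ins.1 hk).1
      have k2 := card_Ins_le_ins hw hk
      unfold nJ nI at hd ⊢
      simp only at hd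
      omega
  exact h1.trans (h.symm.le.trans h2)

open scoped Classical in
lemma up_iter (p : ℕ) : ∀ n j0 i0 : ℕ,
    ((saws n).filter (fun w => nJ n w ≤ j0 ∧ i0 + 18 * p ≤ nI n w)).card * i0 ^ p ≤
      cc (n + 2 * p) * (j0 + 5 * p) ^ p := by
  induction p with
  | zero =>
    intro n j0 i0
    rw [pow_zero, pow_zero, mul_one, mul_one, mul_zero, add_zero, ← card_saws]
    exact Finset.card_filter_le _ _
  | succ p ih =>
    intro n j0 i0
    have h1 := up_step n j0 (i0 + 18 * p)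
    have h2 := ih (n + 2) (j0 + 5) i0
    have e1 : i0 + 18 * (p + 1) = i0 + 18 * p + 18 := by ring
    have e2 : n + 2 * (p + 1) = n + 2 + 2 * p := by ring
    have e3 : j0 + 5 * (p + 1) = j0 + 5 + 5 * p := by ring
    rw [e1, e2, e3]
    have h3 : ((saws n).filter (fun w => nJ n w ≤ j0 ∧ i0 + 18 * p + 18 ≤ nI n w)).card * i0 ≤
        ((saws (n + 2)).filter (fun v => nJ (n + 2) v ≤ j0 + 5 ∧ i0 + 18 * p ≤ nI (n + 2) v)).card *
        (j0 + 5) := (Nat.mul_le_mul_left _ (by omega)).trans h1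
    calc ((saws n).filter (fun w => nJ n w ≤ j0 ∧ i0 + 18 * p + 18 ≤ nI n w)).card * i0 ^ (p + 1)
        = (((saws n).filter (fun w => nJ n w ≤ j0 ∧ i0 + 18 * p + 18 ≤ nI n w)).card * i0) *
          i0 ^ p := by ring
      _ ≤ (((saws (n + 2)).filter
          (fun v => nJ (n + 2) v ≤ j0 + 5 ∧ i0 + 18 * p ≤ nI (n + 2) v)).card * (j0 + 5)) *
          i0 ^ p := Nat.mul_le_mul_right _ h3
      _ = (((saws (n + 2)).filter
          (fun v => nJ (n + 2) v ≤ j0 + 5 ∧ i0 + 18 * p ≤ nI (n + 2) v)).card * i0 ^ p) *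
          (j0 + 5) := by ring
      _ ≤ (cc (n + 2 + 2 * p) * (j0 + 5 + 5 * p) ^ p) * (j0 + 5) := Nat.mul_le_mul_right _ h2
      _ ≤ (cc (n + 2 + 2 * p) * (j0 + 5 + 5 * p) ^ p) * (j0 + 5 + 5 * p) :=
          Nat.mul_le_mul_left _ (by omega)
      _ = cc (n + 2 + 2 * p) * (j0 + 5 + 5 * p) ^ (p + 1) := by ring

open scoped Classical in
lemma down_iter (p : ℕ) : ∀ m n j0 i0 : ℕ, m = n + 2 * p →
    ((saws m).filter (fun w => j0 + 5 * p ≤ nJ m w ∧ nI m w ≤ i0)).card * j0 ^ p ≤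
      cc n * (i0 + 18 * p) ^ p := by
  induction p with
  | zero =>
    intro m n j0 i0 h
    have : m = n := by omega
    subst this
    rw [pow_zero, pow_zero, mul_one, mul_one, ← card_saws]
    exact Finset.card_filter_le _ _
  | succ p ih =>
    intro m n j0 i0 h
    obtain ⟨m, rfl⟩ : ∃ m', m = m' + 2 := ⟨n + 2 * p, by omega⟩
    have h1 := down_step m (j0 + 5 * p) i0
    have h2 := ih m n j0 (i0 + 18) (by omega)
    have e1 : i0 + 18 * (p + 1) = i0 + 18 + 18 * p := by ring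
    have e3 : j0 + 5 * (p + 1) = j0 + 5 * p + 5 := by ring
    rw [e1, e3]
    have h3 : ((saws (m + 2)).filter
        (fun w => j0 + 5 * p + 5 ≤ nJ (m + 2) w ∧ nI (m + 2) w ≤ i0)).card * j0 ≤
        ((saws m).filter (fun v => j0 + 5 * p ≤ nJ m v ∧ nI m v ≤ i0 + 18)).card *
        (i0 + 18) := (Nat.mul_le_mul_left _ (by omega)).trans h1
    calc ((saws (m + 2)).filter
        (fun w => j0 + 5 * p + 5 ≤ nJ (m + 2) w ∧ nI (m + 2) w ≤ i0)).card * j0 ^ (p + 1)
        = (((saws (m + 2)).filter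
        (fun w => j0 + 5 * p + 5 ≤ nJ (m + 2) w ∧ nI (m + 2) w ≤ i0)).card * j0) *
          j0 ^ p := by ring
      _ ≤ (((saws m).filter (fun v => j0 + 5 * p ≤ nJ m v ∧ nI m v ≤ i0 + 18)).card *
        (i0 + 18)) * j0 ^ p := Nat.mul_le_mul_right _ h3
      _ = (((saws m).filter (fun v => j0 + 5 * p ≤ nJ m v ∧ nI m v ≤ i0 + 18)).card * j0 ^ p) *
          (i0 + 18) := by ring
      _ ≤ (cc n * (i0 + 18 + 18 * p) ^ p) * (i0 + 18) := Nat.mul_le_mul_right _ h2
      _ ≤ (cc n * (i0 + 18 + 18 * p) ^ p) * (i0 + 18 + 18 * p) :=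
          Nat.mul_le_mul_left _ (by omega)
      _ = cc n * (i0 + 18 + 18 * p) ^ (p + 1) := by ring

end Pool.Agent.SawMrg
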